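import Pool.Agent.Work.MP_1c7b0d_gt_BL_helper58.Frame

set_option autoImplicit false

open MeasureTheory Set Filter Topology
open scoped RealInnerProductSpace

namespace Pool.Agent.MP_1c7b0d_BL

/-- Binet function. -/
noncomputable def binet (u : ℝ) : ℝ :=
  Real.log (Real.Gamma u) - (u - 1 / 2) * Real.log u + u - 1 / 2 * Real.log (2 * Real.pi)

/-- The one dimensional integral of `exp ((s - e^s)/r)`, with a shift `b`. -/
theorem gamma_shift (b r : ℝ) (hr : 0 < r) :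
    Integrable (fun t : ℝ => Real.exp (((b + t) - Real.exp (b + t)) / r)) ∧
    ∫ t : ℝ, Real.exp (((b + t) - Real.exp (b + t)) / r) = r ^ (1 / r) * Real.Gamma (1 / r) := by
  have hr' : 0 < 1 / r := by positivity
  have hd : ∀ t ∈ (univ : Set ℝ), HasDerivWithinAt (fun t : ℝ => Real.exp (b + t) / r)
      (Real.exp (b + t) / r) univ t := by
    intro t _
    have h1 : HasDerivAt (fun t : ℝ => b + t) 1 t := (hasDerivAt_id t).const_add b
    have h2 := (h1.exp).div_const r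
    rw [mul_one] at h2
    exact h2.hasDerivWithinAt
  have hinj : InjOn (fun t : ℝ => Real.exp (b + t) / r) univ := by
    intro x _ y _ hxy
    simp only at hxy
    have h1 : Real.exp (b + x) = Real.exp (b + y) := by
      field_simp at hxy
      exact hxy
    have h2 := Real.exp_injective h1
    linarith
  have himg : (fun t : ℝ => Real.exp (b + t) / r) '' univ = Ioi 0 := by
    ext z
    constructor
    · rintro ⟨t, -, rfl⟩
      exact div_pos (Real.exp_pos _) hr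
    · intro hz
      have hz' : 0 < z := hz
      refine ⟨Real.log (z * r) - b, mem_univ _, ?_⟩
      simp only
      rw [show b + (Real.log (z * r) - b) = Real.log (z * r) by ring, Real.exp_log (by positivity)]
      field_simp
  have hpt : ∀ t : ℝ, |Real.exp (b + t) / r| • (Real.exp (-(Real.exp (b + t) / r)) *
      (Real.exp (b + t) / r) ^ (1 / r - 1)) =
      (r ^ (1 / r))⁻¹ * Real.exp (((b + t) - Real.exp (b + t)) / r) := by
    intro t
    have hp : 0 < Real.exp (b + t) / r := div_pos (Real.exp_pos _) hr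
    rw [abs_of_pos hp, smul_eq_mul]
    have h1 : (Real.exp (b + t) / r) * (Real.exp (b + t) / r) ^ (1 / r - 1) =
        (Real.exp (b + t) / r) ^ (1 / r) := by
      rw [Real.rpow_sub_one hp.ne']
      field_simp
    have h2 : (Real.exp (b + t) / r) ^ (1 / r) = Real.exp ((b + t) / r) * (r ^ (1 / r))⁻¹ := by
      rw [Real.div_rpow (Real.exp_pos _).le hr.le, ← Real.exp_mul, div_eq_mul_inv]
      congr 2
      ring
    have h3 : Real.exp (((b + t) - Real.exp (b + t)) / r) =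
        Real.exp ((b + t) / r) * Real.exp (-(Real.exp (b + t) / r)) := by
      rw [← Real.exp_add]
      congr 1
      ring
    rw [h3]
    calc Real.exp (b + t) / r * (Real.exp (-(Real.exp (b + t) / r)) * (Real.exp (b + t) / r) ^ (1 / r - 1))
        = Real.exp (-(Real.exp (b + t) / r)) * ((Real.exp (b + t) / r) * (Real.exp (b + t) / r) ^ (1 / r - 1)) := by ring
      _ = _ := by
        rw [h1, h2]
        ring
  have hrp : 0 < r ^ (1 / r) := Real.rpow_pos_of_pos hr _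
  constructor
  · have h1 : IntegrableOn (fun x : ℝ => Real.exp (-x) * x ^ (1 / r - 1)) (Ioi 0) :=
      Real.GammaIntegral_convergent hr'
    rw [← himg] at h1
    rw [integrableOn_image_iff_integrableOn_abs_deriv_smul MeasurableSet.univ hd hinj] at h1
    simp only [hpt] at h1
    rw [integrableOn_univ] at h1
    have h2 := h1.const_mul (r ^ (1 / r))
    refine h2.congr (Eventually.of_forall (fun t => ?_))
    simp only
    field_simp
  · have h1 := integral_image_eq_integral_abs_deriv_smul MeasurableSet.univ hd hinj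
      (fun x : ℝ => Real.exp (-x) * x ^ (1 / r - 1))
    rw [himg, ← Real.Gamma_eq_integral hr'] at h1
    simp only [hpt] at h1
    rw [setIntegral_univ, integral_const_mul] at h1
    rw [h1]
    field_simp

variable {E : Type*} [NormedAddCommGroup E] [InnerProductSpace ℝ E] [FiniteDimensional ℝ E]
variable {ι : Type*} [Fintype ι]

theorem frame_trace (v : ι → E) (w : ι → ℝ)
    (hfr : ∀ x : E, ∑ i, w i * ⟪v i, x⟫ ^ 2 = ‖x‖ ^ 2) :
    ∑ i, w i * ‖v i‖ ^ 2 = Module.finrank ℝ E := by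
  have h1 : ∀ i, ‖v i‖ ^ 2 = ∑ k, ⟪v i, (stdOrthonormalBasis ℝ E) k⟫ ^ 2 := by
    intro i
    have := (stdOrthonormalBasis ℝ E).sum_sq_norm_inner_right (v i)
    rw [← this]
    apply Finset.sum_congr rfl
    intro k _
    rw [Real.norm_eq_abs, sq_abs, real_inner_comm]
  calc ∑ i, w i * ‖v i‖ ^ 2 = ∑ i, ∑ k, w i * ⟪v i, (stdOrthonormalBasis ℝ E) k⟫ ^ 2 := by
        apply Finset.sum_congr rfl
        intro i _
        rw [h1 i, Finset.mul_sum]
    _ = ∑ k, ∑ i, w i * ⟪v i, (stdOrthonormalBasis ℝ E) k⟫ ^ 2 := Finset.sum_comm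
    _ = ∑ k : Fin (Module.finrank ℝ E), (1 : ℝ) := by
        apply Finset.sum_congr rfl
        intro k _
        rw [hfr, (stdOrthonormalBasis ℝ E).orthonormal.1 k]
        norm_num
    _ = _ := by simp

variable [MeasurableSpace E] [BorelSpace E]

theorem bl_exp_pos (v : ι → E) (w : ι → ℝ) (hw : ∀ i, 0 < w i) (hv : ∀ i, v i ≠ 0)
    (hfr : ∀ x : E, ∑ i, w i * ⟪v i, x⟫ ^ 2 = ‖x‖ ^ 2) (b : ι → ℝ) :
    ∫⁻ x : E, ENNReal.ofReal (Real.exp (∑ i, w i * ((b i + ⟪v i, x⟫) - Real.exp (b i + ⟪v i, x⟫)))) ≤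
      ENNReal.ofReal (Real.exp ((Module.finrank ℝ E : ℝ) / 2 * Real.log (2 * Real.pi) - ∑ i, w i +
        ∑ i, w i * (‖v i‖ ^ 2 * binet (1 / ‖v i‖ ^ 2)))) := by
  have hnv : ∀ i, 0 < ‖v i‖ := fun i => norm_pos_iff.mpr (hv i)
  have hr : ∀ i, 0 < ‖v i‖ ^ 2 := fun i => by
    have := hnv i
    positivity
  have h1 := bl_frame v w hw hv hfr
    (fun i t => Real.exp (((b i + t) - Real.exp (b i + t)) / ‖v i‖ ^ 2))
    (fun i => by fun_prop) (fun i t => Real.exp_pos _) (fun i => (gamma_shift (b i) _ (hr i)).1)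
  have h2 : ∀ x : E, (∏ i, Real.exp (((b i + ⟪v i, x⟫) - Real.exp (b i + ⟪v i, x⟫)) / ‖v i‖ ^ 2) ^
      (w i * ‖v i‖ ^ 2)) =
      Real.exp (∑ i, w i * ((b i + ⟪v i, x⟫) - Real.exp (b i + ⟪v i, x⟫))) := by
    intro x
    rw [Real.exp_sum]
    apply Finset.prod_congr rfl
    intro i _
    rw [← Real.exp_mul]
    congr 1
    have := (hr i).ne'
    generalize ‖v i‖ ^ 2 = R at this ⊢
    field_simp
  have h3 : ∏ i, ((∫ s, Real.exp (((b i + s) - Real.exp (b i + s)) / ‖v i‖ ^ 2)) / ‖v i‖) ^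
      (w i * ‖v i‖ ^ 2) = Real.exp ((Module.finrank ℝ E : ℝ) / 2 * Real.log (2 * Real.pi) - ∑ i, w i +
        ∑ i, w i * (‖v i‖ ^ 2 * binet (1 / ‖v i‖ ^ 2))) := by
    have h4 : ∀ i, ((∫ s, Real.exp (((b i + s) - Real.exp (b i + s)) / ‖v i‖ ^ 2)) / ‖v i‖) ^
      (w i * ‖v i‖ ^ 2) = Real.exp (w i * ‖v i‖ ^ 2 * (1 / 2 * Real.log (2 * Real.pi)) - w i +
        w i * (‖v i‖ ^ 2 * binet (1 / ‖v i‖ ^ 2))) := by
      intro i
      rw [(gamma_shift (b i) _ (hr i)).2]
      have g1 : 0 < Real.Gamma (1 / ‖v i‖ ^ 2) := Real.Gamma_pos_of_pos (by have := hr i; positivity)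
      have g2 : 0 < (‖v i‖ ^ 2) ^ (1 / ‖v i‖ ^ 2) := Real.rpow_pos_of_pos (hr i) _
      have g3 : 0 < (‖v i‖ ^ 2) ^ (1 / ‖v i‖ ^ 2) * Real.Gamma (1 / ‖v i‖ ^ 2) / ‖v i‖ := by
        have := hnv i
        positivity
      rw [Real.rpow_def_of_pos g3]
      congr 1
      rw [Real.log_div (by positivity) (hnv i).ne', Real.log_mul g2.ne' g1.ne',
        Real.log_rpow (hr i)]
      have g4 : Real.log (1 / ‖v i‖ ^ 2) = - Real.log (‖v i‖ ^ 2) := by
        rw [one_div, Real.log_inv]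
      have g5 : Real.log (‖v i‖ ^ 2) = 2 * Real.log ‖v i‖ := by
        rw [Real.log_pow]
        norm_num
      unfold binet
      rw [g4, g5]
      have := (hnv i).ne'
      field_simp
      ring
    rw [Finset.prod_congr rfl (fun i _ => h4 i), ← Real.exp_sum]
    congr 1
    rw [Finset.sum_add_distrib, Finset.sum_sub_distrib, ← Finset.sum_mul, frame_trace v w hfr]
    ring
  simp only [h2] at h1
  rw [h3] at h1
  exact h1

/-- The same with zero vectors allowed. -/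
theorem bl_exp (v : ι → E) (w : ι → ℝ) (hw : ∀ i, 0 < w i)
    (hfr : ∀ x : E, ∑ i, w i * ⟪v i, x⟫ ^ 2 = ‖x‖ ^ 2) (b : ι → ℝ) :
    ∫⁻ x : E, ENNReal.ofReal (Real.exp (∑ i, w i * ((b i + ⟪v i, x⟫) - Real.exp (b i + ⟪v i, x⟫)))) ≤
      ENNReal.ofReal (Real.exp ((Module.finrank ℝ E : ℝ) / 2 * Real.log (2 * Real.pi) - ∑ i, w i +
        ∑ i, w i * (‖v i‖ ^ 2 * binet (1 / ‖v i‖ ^ 2)))) := by
  classical
  have hsplit : ∀ F : ι → ℝ, ∑ i, F i = ∑ j : {i // v i ≠ 0}, F j + ∑ j : {i // ¬ v i ≠ 0}, F j := by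
    intro F
    exact (Fintype.sum_subtype_add_sum_subtype (fun i => v i ≠ 0) F).symm
  have hfr' : ∀ x : E, ∑ j : {i // v i ≠ 0}, w j * ⟪v j, x⟫ ^ 2 = ‖x‖ ^ 2 := by
    intro x
    rw [← hfr x, hsplit (fun i => w i * ⟪v i, x⟫ ^ 2)]
    have h0 : ∑ j : {i // ¬ v i ≠ 0}, w j * ⟪v j, x⟫ ^ 2 = 0 := by
      apply Finset.sum_eq_zero
      intro j _
      have := not_not.mp j.2
      rw [this, inner_zero_left]
      ring
    rw [h0, add_zero]
  have h1 := bl_exp_pos (fun j : {i // v i ≠ 0} => v j) (fun j => w j) (fun j => hw j) (fun j => j.2)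
    hfr' (fun j => b j)
  have h2 : ∀ x : E, ENNReal.ofReal (Real.exp (∑ i, w i * ((b i + ⟪v i, x⟫) - Real.exp (b i + ⟪v i, x⟫)))) ≤
      ENNReal.ofReal (Real.exp (- ∑ j : {i // ¬ v i ≠ 0}, w j)) *
      ENNReal.ofReal (Real.exp (∑ j : {i // v i ≠ 0}, w j * ((b j + ⟪v j, x⟫) - Real.exp (b j + ⟪v j, x⟫)))) := by
    intro x
    rw [← ENNReal.ofReal_mul (Real.exp_pos _).le, ← Real.exp_add]
    apply ENNReal.ofReal_le_ofReal
    apply Real.exp_le_exp.mpr
    rw [hsplit (fun i => w i * ((b i + ⟪v i, x⟫) - Real.exp (b i + ⟪v i, x⟫))), add_comm]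
    apply add_le_add_left
    rw [← Finset.sum_neg_distrib]
    apply Finset.sum_le_sum
    intro j _
    have h3 := Real.add_one_le_exp (b j + ⟪v j, x⟫)
    have h4 := hw j
    nlinarith
  calc ∫⁻ x : E, ENNReal.ofReal (Real.exp (∑ i, w i * ((b i + ⟪v i, x⟫) - Real.exp (b i + ⟪v i, x⟫))))
      ≤ ∫⁻ x : E, ENNReal.ofReal (Real.exp (- ∑ j : {i // ¬ v i ≠ 0}, w j)) *
      ENNReal.ofReal (Real.exp (∑ j : {i // v i ≠ 0}, w j * ((b j + ⟪v j, x⟫) - Real.exp (b j + ⟪v j, x⟫)))) :=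
        lintegral_mono h2
    _ = ENNReal.ofReal (Real.exp (- ∑ j : {i // ¬ v i ≠ 0}, w j)) * ∫⁻ x : E,
      ENNReal.ofReal (Real.exp (∑ j : {i // v i ≠ 0}, w j * ((b j + ⟪v j, x⟫) - Real.exp (b j + ⟪v j, x⟫)))) := by
        rw [lintegral_const_mul' _ _ ENNReal.ofReal_ne_top]
    _ ≤ ENNReal.ofReal (Real.exp (- ∑ j : {i // ¬ v i ≠ 0}, w j)) *
        ENNReal.ofReal (Real.exp ((Module.finrank ℝ E : ℝ) / 2 * Real.log (2 * Real.pi) -
          ∑ j : {i // v i ≠ 0}, w j +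
          ∑ j : {i // v i ≠ 0}, w j * (‖v j‖ ^ 2 * binet (1 / ‖v j‖ ^ 2)))) := by
        gcongr
    _ = _ := by
        rw [← ENNReal.ofReal_mul (Real.exp_pos _).le, ← Real.exp_add]
        congr 2
        rw [hsplit (fun i => w i), hsplit (fun i => w i * (‖v i‖ ^ 2 * binet (1 / ‖v i‖ ^ 2)))]
        have h0 : ∑ j : {i // ¬ v i ≠ 0}, w j * (‖v j‖ ^ 2 * binet (1 / ‖v j‖ ^ 2)) = 0 := by
          apply Finset.sum_eq_zero
          intro j _
          have := not_not.mp j.2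
          rw [this, norm_zero]
          ring
        rw [h0]
        ring

end Pool.Agent.MP_1c7b0d_BL
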