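import Pool.Agent.Work.MP_1c7b0d_gt_BL_helper58.Transport

set_option autoImplicit false

open MeasureTheory Set Filter Topology
open scoped RealInnerProductSpace

namespace Pool.Agent.MP_1c7b0d_BL

variable {E : Type*} [NormedAddCommGroup E] [InnerProductSpace ℝ E]
variable {ι : Type*} [Fintype ι]

/-- The operator `x ↦ ∑ a_i ⟨v_i, x⟩ v_i`. -/
noncomputable def frameOp (v : ι → E) (a : ι → ℝ) : E →L[ℝ] E :=
  ∑ i, a i • (innerSL ℝ (v i)).smulRight (v i)

theorem frameOp_apply (v : ι → E) (a : ι → ℝ) (x : E) :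
    frameOp v a x = ∑ i, (a i * ⟪v i, x⟫) • v i := by
  simp only [frameOp, sum_apply, smul_apply,
    ContinuousLinearMap.smulRight_apply, innerSL_apply_apply, smul_smul]

theorem inner_frameOp (v : ι → E) (a : ι → ℝ) (x y : E) :
    ⟪frameOp v a x, y⟫ = ∑ i, a i * ⟪v i, x⟫ * ⟪v i, y⟫ := by
  rw [frameOp_apply, sum_inner]
  apply Finset.sum_congr rfl
  intro i _
  rw [real_inner_smul_left]

theorem frameOp_symm (v : ι → E) (a : ι → ℝ) :
    (frameOp v a : E →ₗ[ℝ] E).IsSymmetric := by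
  intro x y
  have h1 := inner_frameOp v a x y
  have h2 := inner_frameOp v a y x
  simp only [ContinuousLinearMap.coe_coe]
  rw [h1, real_inner_comm, h2]
  apply Finset.sum_congr rfl
  intro i _
  ring

theorem frameOp_det_ge [FiniteDimensional ℝ E] (v : ι → E) (w t : ι → ℝ) (hw : ∀ i, 0 ≤ w i)
    (ht : ∀ i, 0 < t i) (hfr : ∀ x : E, ∑ i, w i * ⟪v i, x⟫ ^ 2 = ‖x‖ ^ 2) :
    ∏ i, t i ^ (w i * ‖v i‖ ^ 2) ≤ (frameOp v (fun i => w i * t i)).det := by
  classical
  have hs := frameOp_symm v (fun i => w i * t i)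
  have hdet : (frameOp v (fun i => w i * t i)).det = ∏ k, hs.eigenvalues rfl k := by
    have := hs.det_eq_prod_eigenvalues rfl
    simp only [RCLike.ofReal_real_eq_id, id_eq] at this
    exact this
  rw [hdet]
  have hq : ∀ k, ‖hs.eigenvectorBasis rfl k‖ = 1 := fun k => (hs.eigenvectorBasis rfl).orthonormal.1 k
  have hev : ∀ k, hs.eigenvalues rfl k = ∑ i, (w i * ⟪v i, hs.eigenvectorBasis rfl k⟫ ^ 2) * t i := by
    intro k
    have h1 : ⟪frameOp v (fun i => w i * t i) (hs.eigenvectorBasis rfl k), hs.eigenvectorBasis rfl k⟫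
        = hs.eigenvalues rfl k := by
      have h2 := hs.apply_eigenvectorBasis rfl k
      simp only [ContinuousLinearMap.coe_coe, RCLike.ofReal_real_eq_id, id_eq] at h2
      rw [h2, real_inner_smul_left, real_inner_self_eq_norm_sq, hq k]
      ring
    rw [← h1, inner_frameOp]
    apply Finset.sum_congr rfl
    intro i _
    ring
  have hev2 : ∀ k, ∏ i, t i ^ (w i * ⟪v i, hs.eigenvectorBasis rfl k⟫ ^ 2) ≤ hs.eigenvalues rfl k := by
    intro k
    rw [hev k]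
    apply Real.geom_mean_le_arith_mean_weighted
    · intro i _
      exact mul_nonneg (hw i) (sq_nonneg _)
    · rw [hfr, hq k]
      norm_num
    · intro i _
      exact (ht i).le
  calc ∏ i, t i ^ (w i * ‖v i‖ ^ 2)
      = ∏ i, ∏ k, t i ^ (w i * ⟪v i, hs.eigenvectorBasis rfl k⟫ ^ 2) := by
        apply Finset.prod_congr rfl
        intro i _
        rw [← Real.rpow_sum_of_pos (ht i), ← Finset.mul_sum]
        congr 2
        have := (hs.eigenvectorBasis rfl).sum_sq_norm_inner_right (v i)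
        rw [← this]
        apply Finset.sum_congr rfl
        intro k _
        rw [Real.norm_eq_abs, sq_abs, real_inner_comm]
    _ = ∏ k, ∏ i, t i ^ (w i * ⟪v i, hs.eigenvectorBasis rfl k⟫ ^ 2) := Finset.prod_comm
    _ ≤ ∏ k, hs.eigenvalues rfl k := by
        apply Finset.prod_le_prod
        · intro k _
          apply Finset.prod_nonneg
          intro i _
          exact Real.rpow_nonneg (ht i).le _
        · intro k _
          exact hev2 k

/-- `‖∑ w_i a_i v_i‖² ≤ ∑ w_i a_i²`. -/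
theorem frame_norm_le (v : ι → E) (w a : ι → ℝ) (hw : ∀ i, 0 ≤ w i)
    (hfr : ∀ x : E, ∑ i, w i * ⟪v i, x⟫ ^ 2 = ‖x‖ ^ 2) :
    ‖∑ i, (w i * a i) • v i‖ ^ 2 ≤ ∑ i, w i * a i ^ 2 := by
  obtain ⟨z, hz⟩ : ∃ z, z = ∑ i, (w i * a i) • v i := ⟨_, rfl⟩
  rw [← hz]
  have h1 : ‖z‖ ^ 2 = ∑ i, w i * a i * ⟪v i, z⟫ := by
    rw [← real_inner_self_eq_norm_sq]
    nth_rewrite 1 [hz]
    rw [sum_inner]
    apply Finset.sum_congr rfl
    intro i _
    rw [real_inner_smul_left]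
  have h2 : 0 ≤ ∑ i, w i * (a i - ⟪v i, z⟫) ^ 2 :=
    Finset.sum_nonneg (fun i _ => mul_nonneg (hw i) (sq_nonneg _))
  have h3 : ∑ i, w i * (a i - ⟪v i, z⟫) ^ 2 =
      ∑ i, w i * a i ^ 2 - 2 * ∑ i, w i * a i * ⟪v i, z⟫ + ∑ i, w i * ⟪v i, z⟫ ^ 2 := by
    rw [Finset.mul_sum, ← Finset.sum_sub_distrib, ← Finset.sum_add_distrib]
    apply Finset.sum_congr rfl
    intro i _
    ring
  rw [h3, ← h1, hfr z] at h2
  linarith

variable [FiniteDimensional ℝ E] [MeasurableSpace E] [BorelSpace E]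

/-- Rank one geometric Brascamp-Lieb inequality. -/
theorem bl_frame (v : ι → E) (w : ι → ℝ) (hw : ∀ i, 0 < w i) (hv : ∀ i, v i ≠ 0)
    (hfr : ∀ x : E, ∑ i, w i * ⟪v i, x⟫ ^ 2 = ‖x‖ ^ 2)
    (g : ι → ℝ → ℝ) (hc : ∀ i, Continuous (g i)) (hpos : ∀ i t, 0 < g i t)
    (hi : ∀ i, Integrable (g i)) :
    ∫⁻ x : E, ENNReal.ofReal (∏ i, g i ⟪v i, x⟫ ^ (w i * ‖v i‖ ^ 2)) ≤
      ENNReal.ofReal (∏ i, ((∫ s, g i s) / ‖v i‖) ^ (w i * ‖v i‖ ^ 2)) := by
  classical
  have hI : ∀ i, 0 < ∫ s, g i s := fun i => by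
    obtain ⟨-, -, f0, f1, -⟩ := cdf_facts (g i) (hc i) (hpos i) (hi i)
    exact lt_trans (f0 0) (f1 0)
  have hnv : ∀ i, 0 < ‖v i‖ := fun i => norm_pos_iff.mpr (hv i)
  choose T hT using fun i => transport_gauss (g i) (hc i) (hpos i) (hi i)
  obtain ⟨T', hT'⟩ : ∃ T' : ι → ℝ → ℝ, T' = fun i t =>
    (g i t / ∫ x, g i x) * Real.exp (Real.pi * T i t ^ 2) := ⟨_, rfl⟩
  have hTd : ∀ i t, HasDerivAt (T i) (T' i t) t := fun i t => by
    rw [hT']
    exact hT i t
  have hT'pos : ∀ i t, 0 < T' i t := fun i t => by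
    rw [hT']
    exact mul_pos (div_pos (hpos i t) (hI i)) (Real.exp_pos _)
  have hTmono : ∀ i, StrictMono (T i) := fun i =>
    strictMono_of_hasDerivAt_pos (hTd i) (hT'pos i)
  obtain ⟨Θ, hΘ⟩ : ∃ Θ : E → E, Θ = fun x => ∑ i, (w i * (‖v i‖ * T i ⟪v i, x⟫)) • v i := ⟨_, rfl⟩
  obtain ⟨L, hL⟩ : ∃ L : E → (E →L[ℝ] E), L = fun x =>
    frameOp v (fun i => w i * (‖v i‖ * T' i ⟪v i, x⟫)) := ⟨_, rfl⟩
  have hder : ∀ x, HasFDerivAt Θ (L x) x := by
    intro x
    have h1 : ∀ i, HasFDerivAt (fun x => (w i * (‖v i‖ * T i ⟪v i, x⟫)) • v i)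
        ((w i * (‖v i‖ * T' i ⟪v i, x⟫)) • (innerSL ℝ (v i)).smulRight (v i)) x := by
      intro i
      have h2 : HasFDerivAt (fun x => ⟪v i, x⟫) (innerSL ℝ (v i)) x :=
        (innerSL ℝ (v i)).hasFDerivAt
      have h3 := (hTd i ⟪v i, x⟫).comp_hasFDerivAt x h2
      have h4 := ((h3.const_mul ‖v i‖).const_mul (w i)).smul_const (v i)
      refine h4.congr_fderiv ?_
      ext z
      simp only [ContinuousLinearMap.smulRight_apply, smul_apply, smul_smul,
        smul_eq_mul]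
    rw [hΘ, hL]
    have h5 := HasFDerivAt.fun_sum (u := Finset.univ) (fun i _ => h1 i)
    exact h5
  have hinj : Function.Injective Θ := by
    intro x y hxy
    by_contra hne
    have h1 : ⟪Θ x - Θ y, x - y⟫ = ∑ i, w i * ‖v i‖ * ((T i ⟪v i, x⟫ - T i ⟪v i, y⟫) * (⟪v i, x⟫ - ⟪v i, y⟫)) := by
      rw [hΘ]
      simp only
      rw [← Finset.sum_sub_distrib, sum_inner]
      apply Finset.sum_congr rfl
      intro i _
      rw [← sub_smul, real_inner_smul_left, inner_sub_right]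
      ring
    have hterm : ∀ a b : ℝ, ∀ i, a ≠ b → 0 < (T i a - T i b) * (a - b) := by
      intro a b i hab
      rcases lt_or_gt_of_ne hab with h | h
      · have := hTmono i h
        exact mul_pos_of_neg_of_neg (by linarith) (by linarith)
      · have := hTmono i h
        exact mul_pos (by linarith) (by linarith)
    have hex : ∃ i, ⟪v i, x⟫ ≠ ⟪v i, y⟫ := by
      by_contra hcon
      push Not at hcon
      have h2 := hfr (x - y)
      have h3 : ∑ i, w i * ⟪v i, x - y⟫ ^ 2 = 0 := by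
        apply Finset.sum_eq_zero
        intro i _
        rw [inner_sub_right, hcon i]
        ring
      rw [h3] at h2
      have h4 : ‖x - y‖ = 0 := by
        have := pow_eq_zero_iff (n := 2) (by norm_num) |>.mp h2.symm
        exact this
      exact hne (sub_eq_zero.mp (norm_eq_zero.mp h4))
    obtain ⟨j, hj⟩ := hex
    have h2 : 0 < ∑ i, w i * ‖v i‖ * ((T i ⟪v i, x⟫ - T i ⟪v i, y⟫) * (⟪v i, x⟫ - ⟪v i, y⟫)) := by
      apply Finset.sum_pos'
      · intro i _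
        apply mul_nonneg (mul_pos (hw i) (hnv i)).le
        by_cases h : ⟪v i, x⟫ = ⟪v i, y⟫
        · rw [h]
          simp
        · exact (hterm _ _ i h).le
      · exact ⟨j, Finset.mem_univ _, mul_pos (mul_pos (hw j) (hnv j)) (hterm _ _ j hj)⟩
    rw [← h1, hxy, sub_self, inner_zero_left] at h2
    exact lt_irrefl _ h2
  obtain ⟨C, hC⟩ : ∃ C : ℝ, C = ∏ i, ((∫ s, g i s) / ‖v i‖) ^ (w i * ‖v i‖ ^ 2) := ⟨_, rfl⟩
  have hCpos : 0 < C := by
    rw [hC]
    apply Finset.prod_pos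
    intro i _
    exact Real.rpow_pos_of_pos (div_pos (hI i) (hnv i)) _
  have hkey : ∀ x : E, ∏ i, g i ⟪v i, x⟫ ^ (w i * ‖v i‖ ^ 2) ≤
      C * (|(L x).det| * Real.exp (-Real.pi * ‖Θ x‖ ^ 2)) := by
    intro x
    have e1 : ∀ i, g i ⟪v i, x⟫ ^ (w i * ‖v i‖ ^ 2) =
        ((∫ s, g i s) / ‖v i‖) ^ (w i * ‖v i‖ ^ 2) *
        ((‖v i‖ * T' i ⟪v i, x⟫) ^ (w i * ‖v i‖ ^ 2) *
          Real.exp (-Real.pi * (w i * (‖v i‖ * T i ⟪v i, x⟫) ^ 2))) := by
      intro i
      have e2 : g i ⟪v i, x⟫ = ((∫ s, g i s) / ‖v i‖) * ((‖v i‖ * T' i ⟪v i, x⟫) *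
          Real.exp (-Real.pi * T i ⟪v i, x⟫ ^ 2)) := by
        rw [hT']
        simp only
        have e3 : Real.exp (Real.pi * T i ⟪v i, x⟫ ^ 2) * Real.exp (-Real.pi * T i ⟪v i, x⟫ ^ 2) = 1 := by
          rw [← Real.exp_add]
          ring_nf
          exact Real.exp_zero
        have e4 := (hI i).ne'
        have e5 := (hnv i).ne'
        calc g i ⟪v i, x⟫ = g i ⟪v i, x⟫ * 1 := by ring
          _ = g i ⟪v i, x⟫ * (Real.exp (Real.pi * T i ⟪v i, x⟫ ^ 2) *
                Real.exp (-Real.pi * T i ⟪v i, x⟫ ^ 2)) := by rw [e3]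
          _ = _ := by
                field_simp
      have e6 : 0 < ‖v i‖ * T' i ⟪v i, x⟫ := mul_pos (hnv i) (hT'pos i _)
      have e7 : Real.exp (-Real.pi * T i ⟪v i, x⟫ ^ 2) ^ (w i * ‖v i‖ ^ 2) =
          Real.exp (-Real.pi * (w i * (‖v i‖ * T i ⟪v i, x⟫) ^ 2)) := by
        rw [← Real.exp_mul]
        congr 1
        ring
      nth_rewrite 1 [e2]
      rw [Real.mul_rpow (div_pos (hI i) (hnv i)).le (mul_pos e6 (Real.exp_pos _)).le,
        Real.mul_rpow e6.le (Real.exp_pos _).le, e7]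
    have e8 : ∏ i, g i ⟪v i, x⟫ ^ (w i * ‖v i‖ ^ 2) =
        C * ((∏ i, (‖v i‖ * T' i ⟪v i, x⟫) ^ (w i * ‖v i‖ ^ 2)) *
          Real.exp (-Real.pi * ∑ i, (w i * (‖v i‖ * T i ⟪v i, x⟫) ^ 2))) := by
      rw [hC, Finset.mul_sum, Real.exp_sum, ← Finset.prod_mul_distrib, ← Finset.prod_mul_distrib]
      exact Finset.prod_congr rfl (fun i _ => e1 i)
    rw [e8]
    apply mul_le_mul_of_nonneg_left _ hCpos.le
    have h1 : ∏ i, (‖v i‖ * T' i ⟪v i, x⟫) ^ (w i * ‖v i‖ ^ 2) ≤ (L x).det := by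
      rw [hL]
      exact frameOp_det_ge v w _ (fun i => (hw i).le) (fun i => mul_pos (hnv i) (hT'pos i _)) hfr
    have h2 : ‖Θ x‖ ^ 2 ≤ ∑ i, (w i * (‖v i‖ * T i ⟪v i, x⟫) ^ 2) := by
      rw [hΘ]
      exact frame_norm_le v w _ (fun i => (hw i).le) hfr
    apply mul_le_mul
    · exact h1.trans (le_abs_self _)
    · apply Real.exp_le_exp.mpr
      have := Real.pi_pos
      nlinarith
    · exact (Real.exp_pos _).le
    · exact abs_nonneg _
  have hcv := lintegral_image_eq_lintegral_abs_det_fderiv_mul (volume : Measure E) MeasurableSet.univ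
    (fun x _ => (hder x).hasFDerivWithinAt) (hinj.injOn) (fun z => ENNReal.ofReal (Real.exp (-Real.pi * ‖z‖ ^ 2)))
  have hgauss : ∫⁻ z : E, ENNReal.ofReal (Real.exp (-Real.pi * ‖z‖ ^ 2)) = 1 := by
    rw [← ofReal_integral_eq_lintegral_ofReal]
    · rw [GaussianFourier.integral_rexp_neg_mul_sq_norm Real.pi_pos, div_self Real.pi_pos.ne',
        Real.one_rpow, ENNReal.ofReal_one]
    · by_contra hni
      have h1 := integral_undef hni
      rw [GaussianFourier.integral_rexp_neg_mul_sq_norm Real.pi_pos, div_self Real.pi_pos.ne',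
        Real.one_rpow] at h1
      exact one_ne_zero h1
    · exact Eventually.of_forall (fun z => (Real.exp_pos _).le)
  calc ∫⁻ x : E, ENNReal.ofReal (∏ i, g i ⟪v i, x⟫ ^ (w i * ‖v i‖ ^ 2))
      ≤ ∫⁻ x : E, ENNReal.ofReal C * (ENNReal.ofReal |(L x).det| *
          ENNReal.ofReal (Real.exp (-Real.pi * ‖Θ x‖ ^ 2))) := by
        apply lintegral_mono
        intro x
        simp only
        rw [← ENNReal.ofReal_mul (abs_nonneg _), ← ENNReal.ofReal_mul hCpos.le]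
        exact ENNReal.ofReal_le_ofReal (hkey x)
    _ = ENNReal.ofReal C * ∫⁻ x : E, (ENNReal.ofReal |(L x).det| *
          ENNReal.ofReal (Real.exp (-Real.pi * ‖Θ x‖ ^ 2))) := by
        rw [lintegral_const_mul' _ _ ENNReal.ofReal_ne_top]
    _ ≤ ENNReal.ofReal C * 1 := by
        gcongr
        rw [Measure.restrict_univ] at hcv
        rw [← hcv, ← hgauss]
        exact setLIntegral_le_lintegral _ _
    _ = _ := by rw [mul_one, hC]

end Pool.Agent.MP_1c7b0d_BL
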