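import Mathlib

set_option autoImplicit false

open MeasureTheory Set Filter Topology

namespace Pool.Agent.MP_1c7b0d_BL

/-- The distribution function of a positive continuous integrable density. -/
theorem cdf_facts (f : ℝ → ℝ) (hc : Continuous f) (hpos : ∀ t, 0 < f t) (hi : Integrable f) :
    (∀ t, HasDerivAt (fun s => ∫ x in Iic s, f x) (f t) t) ∧
    StrictMono (fun s => ∫ x in Iic s, f x) ∧
    (∀ t, 0 < ∫ x in Iic t, f x) ∧ (∀ t, ∫ x in Iic t, f x < ∫ x, f x) ∧
    (∀ v, 0 < v → v < ∫ x, f x → ∃ t, ∫ x in Iic t, f x = v) := by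
  have hder : ∀ t, HasDerivAt (fun s => ∫ x in Iic s, f x) (f t) t := by
    intro t
    have h1 : HasDerivAt (fun s => ∫ x in (0:ℝ)..s, f x) (f t) t :=
      intervalIntegral.integral_hasDerivAt_right (hc.intervalIntegrable _ _)
        hc.stronglyMeasurable.stronglyMeasurableAtFilter hc.continuousAt
    have h2 : (fun s => ∫ x in Iic s, f x) = fun s => (∫ x in (0:ℝ)..s, f x) + ∫ x in Iic (0:ℝ), f x := by
      funext s
      rw [← intervalIntegral.integral_Iic_sub_Iic hi.integrableOn hi.integrableOn]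
      ring
    rw [h2]
    exact h1.add_const _
  have hsm : StrictMono (fun s => ∫ x in Iic s, f x) := by
    apply strictMono_of_hasDerivAt_pos
    · exact hder
    · exact hpos
  have htop : Tendsto (fun s => ∫ x in Iic s, f x) atTop (𝓝 (∫ x, f x)) := by
    have h1 : Tendsto (fun s : ℝ => ∫ x in (0:ℝ)..s, f x) atTop (𝓝 (∫ x in Ioi (0:ℝ), f x)) :=
      intervalIntegral_tendsto_integral_Ioi 0 hi.integrableOn tendsto_id
    have h2 : (fun s => ∫ x in Iic s, f x) = fun s => (∫ x in (0:ℝ)..s, f x) + ∫ x in Iic (0:ℝ), f x := by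
      funext s
      rw [← intervalIntegral.integral_Iic_sub_Iic hi.integrableOn hi.integrableOn]
      ring
    have h3 : (∫ x, f x) = (∫ x in Ioi (0:ℝ), f x) + ∫ x in Iic (0:ℝ), f x := by
      rw [add_comm, intervalIntegral.integral_Iic_add_Ioi hi.integrableOn hi.integrableOn]
    rw [h2, h3]
    exact h1.add_const _
  have hbot : Tendsto (fun s => ∫ x in Iic s, f x) atBot (𝓝 0) := by
    have h1 : Tendsto (fun s : ℝ => ∫ x in s..(0:ℝ), f x) atBot (𝓝 (∫ x in Iic (0:ℝ), f x)) :=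
      intervalIntegral_tendsto_integral_Iic 0 hi.integrableOn tendsto_id
    have h2 : (fun s => ∫ x in Iic s, f x) = fun s => (∫ x in Iic (0:ℝ), f x) - (∫ x in s..(0:ℝ), f x) := by
      funext s
      rw [← intervalIntegral.integral_Iic_sub_Iic hi.integrableOn hi.integrableOn]
      ring
    rw [h2]
    have := h1.const_sub (∫ x in Iic (0:ℝ), f x)
    simpa using this
  have hp : ∀ t, 0 < ∫ x in Iic t, f x := by
    intro t
    have h1 : ∫ x in Iic (t-1), f x < ∫ x in Iic t, f x := hsm (by linarith)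
    have h2 : 0 ≤ ∫ x in Iic (t-1), f x := by
      apply setIntegral_nonneg measurableSet_Iic
      intro x _
      exact (hpos x).le
    linarith
  have hq : ∀ t, ∫ x in Iic t, f x < ∫ x, f x := by
    intro t
    have h1 : ∫ x in Iic t, f x < ∫ x in Iic (t+1), f x := hsm (by linarith)
    have h2 : ∫ x in Iic (t+1), f x ≤ ∫ x, f x :=
      setIntegral_le_integral hi (Eventually.of_forall (fun x => (hpos x).le))
    linarith
  refine ⟨hder, hsm, hp, hq, ?_⟩
  intro v hv1 hv2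
  have hcont : Continuous (fun s => ∫ x in Iic s, f x) :=
    continuous_iff_continuousAt.mpr (fun t => (hder t).continuousAt)
  obtain ⟨a, ha⟩ := (hbot.eventually (gt_mem_nhds hv1)).exists
  obtain ⟨b, hb⟩ := (htop.eventually (lt_mem_nhds hv2)).exists
  have := mem_range_of_exists_le_of_exists_ge hcont ⟨a, ha.le⟩ ⟨b, hb.le⟩
  exact this

/-- The monotone transport of the density `f / I` to the density `g / J`, with its derivative. -/
theorem transport_gen (f g : ℝ → ℝ) (hc : Continuous f) (hpos : ∀ t, 0 < f t) (hi : Integrable f)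
    (gc : Continuous g) (gpos : ∀ t, 0 < g t) (gi : Integrable g) :
    ∃ T : ℝ → ℝ, ∀ t, HasDerivAt T ((f t / ∫ x, f x) / (g (T t) / ∫ x, g x)) t := by
  obtain ⟨fd, fm, f0, f1, fs⟩ := cdf_facts f hc hpos hi
  obtain ⟨gd, gm, g0, g1, gs⟩ := cdf_facts g gc gpos gi
  have hI : 0 < ∫ x, f x := lt_trans (f0 0) (f1 0)
  have hJ : 0 < ∫ x, g x := lt_trans (g0 0) (g1 0)
  have ex : ∀ v : ℝ, ∃ s, (0 < v ∧ v < ∫ x, g x) → ∫ x in Iic s, g x = v := by
    intro v
    by_cases hv : 0 < v ∧ v < ∫ x, g x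
    · obtain ⟨s, hs⟩ := gs v hv.1 hv.2
      exact ⟨s, fun _ => hs⟩
    · exact ⟨0, fun h => absurd h hv⟩
  choose S hS using ex
  have hSmono : MonotoneOn S (Ioo 0 (∫ x, g x)) := by
    intro v hv w hw hvw
    by_contra hlt
    push Not at hlt
    have := gm hlt
    simp only at this
    rw [hS v hv, hS w hw] at this
    linarith
  have hSsurj : S '' (Ioo 0 (∫ x, g x)) = univ := by
    apply eq_univ_of_forall
    intro s
    refine ⟨∫ x in Iic s, g x, ⟨g0 s, g1 s⟩, ?_⟩
    apply gm.injective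
    exact hS _ ⟨g0 s, g1 s⟩
  have hScont : ∀ v ∈ Ioo 0 (∫ x, g x), ContinuousAt S v := by
    intro v hv
    apply continuousAt_of_monotoneOn_of_image_mem_nhds hSmono (Ioo_mem_nhds hv.1 hv.2)
    rw [hSsurj]
    exact univ_mem
  have hSder : ∀ v ∈ Ioo 0 (∫ x, g x), HasDerivAt S (g (S v))⁻¹ v := by
    intro v hv
    apply HasDerivAt.of_local_left_inverse (hScont v hv) (gd (S v)) (gpos _).ne'
    filter_upwards [Ioo_mem_nhds hv.1 hv.2] with w hw
    exact hS w hw
  refine ⟨fun t => S ((∫ x in Iic t, f x) * ((∫ x, g x) / ∫ x, f x)), ?_⟩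
  intro t
  have hmem : (∫ x in Iic t, f x) * ((∫ x, g x) / ∫ x, f x) ∈ Ioo 0 (∫ x, g x) := by
    constructor
    · exact mul_pos (f0 t) (div_pos hJ hI)
    · have : (∫ x in Iic t, f x) * ((∫ x, g x) / ∫ x, f x) < (∫ x, f x) * ((∫ x, g x) / ∫ x, f x) :=
        mul_lt_mul_of_pos_right (f1 t) (div_pos hJ hI)
      have h2 : (∫ x, f x) * ((∫ x, g x) / ∫ x, f x) = ∫ x, g x := by
        field_simp
      linarith
  have h1 := (fd t).mul_const ((∫ x, g x) / ∫ x, f x)
  have h2 := HasDerivAt.comp t (hSder _ hmem) h1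
  have h3 : (g (S ((∫ x in Iic t, f x) * ((∫ x, g x) / ∫ x, f x))))⁻¹ * (f t * ((∫ x, g x) / ∫ x, f x))
      = (f t / ∫ x, f x) / (g (S ((∫ x in Iic t, f x) * ((∫ x, g x) / ∫ x, f x))) / ∫ x, g x) := by
    have := (gpos (S ((∫ x in Iic t, f x) * ((∫ x, g x) / ∫ x, f x)))).ne'
    field_simp
  rw [h3] at h2
  exact h2

/-- Transport to the Gaussian `exp (-π t²)`. -/
theorem transport_gauss (f : ℝ → ℝ) (hc : Continuous f) (hpos : ∀ t, 0 < f t)
    (hi : Integrable f) :
    ∃ T : ℝ → ℝ, ∀ t, HasDerivAt T ((f t / ∫ x, f x) * Real.exp (Real.pi * T t ^ 2)) t := by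
  have gi : Integrable (fun x : ℝ => Real.exp (-Real.pi * x ^ 2)) := integrable_exp_neg_mul_sq Real.pi_pos
  have gint : ∫ x : ℝ, Real.exp (-Real.pi * x ^ 2) = 1 := by
    rw [integral_gaussian, div_self Real.pi_pos.ne', Real.sqrt_one]
  obtain ⟨T, hT⟩ := transport_gen f (fun x : ℝ => Real.exp (-Real.pi * x ^ 2)) hc hpos hi
    (by fun_prop) (fun t => Real.exp_pos _) gi
  refine ⟨T, fun t => ?_⟩
  have h := hT t
  rw [gint, div_one, div_eq_mul_inv (f t / ∫ x, f x), ← Real.exp_neg] at h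
  have h3 : -(-Real.pi * T t ^ 2) = Real.pi * T t ^ 2 := by ring
  rw [h3] at h
  exact h

end Pool.Agent.MP_1c7b0d_BL
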